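import Mathlib
import Pool.Agent.Y984.MD.Defs

set_option autoImplicit false

/-! A bottleneck in the union of two subcubes of complementary coordinates. -/

namespace Pool.Agent.K1H95.Mix

open Finset Pool.Agent.Y984.MD

/-- Doubly stochastic matrices: powers have nonnegative entries. -/
lemma pow_nonneg' {ι : Type} [Fintype ι] [DecidableEq ι] (M : Matrix ι ι ℝ)
    (h0 : ∀ x y, 0 ≤ M x y) (t : ℕ) : ∀ x y, 0 ≤ (M ^ t) x y := by
  induction t with
  | zero =>
    intro x y
    rw [pow_zero, Matrix.one_apply]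
    split_ifs <;> norm_num
  | succ t ih =>
    intro x y
    rw [pow_succ, Matrix.mul_apply]
    exact Finset.sum_nonneg fun z _ => mul_nonneg (ih x z) (h0 z y)

lemma pow_row {ι : Type} [Fintype ι] [DecidableEq ι] (M : Matrix ι ι ℝ)
    (h1 : ∀ x, ∑ y, M x y = 1) (t : ℕ) : ∀ x, ∑ y, (M ^ t) x y = 1 := by
  induction t with
  | zero =>
    intro x
    simp [Matrix.one_apply]
  | succ t ih =>
    intro x
    simp_rw [pow_succ, Matrix.mul_apply]
    rw [Finset.sum_comm]
    simp_rw [← Finset.mul_sum, h1, mul_one]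
    exact ih x

lemma pow_col {ι : Type} [Fintype ι] [DecidableEq ι] (M : Matrix ι ι ℝ)
    (h1 : ∀ y, ∑ x, M x y = 1) (t : ℕ) : ∀ y, ∑ x, (M ^ t) x y = 1 := by
  induction t with
  | zero =>
    intro x
    simp [Matrix.one_apply]
  | succ t ih =>
    intro y
    simp_rw [pow_succ, Matrix.mul_apply]
    rw [Finset.sum_comm]
    simp_rw [← Finset.sum_mul, ih, one_mul]
    exact h1 y

/-- The flow out of `S` in `t` steps is at most `t` times the flow in one step. -/
lemma flow_le {ι : Type} [Fintype ι] [DecidableEq ι] (M : Matrix ι ι ℝ)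
    (h0 : ∀ x y, 0 ≤ M x y) (hr : ∀ x, ∑ y, M x y = 1) (hc : ∀ y, ∑ x, M x y = 1)
    (S : Finset ι) (t : ℕ) :
    ∑ x ∈ S, ∑ z ∈ Sᶜ, (M ^ t) x z ≤ t * ∑ x ∈ S, ∑ z ∈ Sᶜ, M x z := by
  induction t with
  | zero =>
    simp only [pow_zero, Nat.cast_zero, zero_mul]
    apply le_of_eq
    apply Finset.sum_eq_zero
    intro x hx
    apply Finset.sum_eq_zero
    intro z hz
    rw [Matrix.one_apply, if_neg]
    rintro rfl
    exact (Finset.mem_compl.mp hz) hx
  | succ t ih =>
    have e : ∑ x ∈ S, ∑ z ∈ Sᶜ, (M ^ (t + 1)) x z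
        = ∑ y, (∑ x ∈ S, (M ^ t) x y) * (∑ z ∈ Sᶜ, M y z) :=
      calc ∑ x ∈ S, ∑ z ∈ Sᶜ, (M ^ (t + 1)) x z
          = ∑ x ∈ S, ∑ z ∈ Sᶜ, ∑ y, (M ^ t) x y * M y z := by
            simp_rw [pow_succ, Matrix.mul_apply]
        _ = ∑ x ∈ S, ∑ y, ∑ z ∈ Sᶜ, (M ^ t) x y * M y z :=
            Finset.sum_congr rfl fun x _ => Finset.sum_comm
        _ = ∑ y, ∑ x ∈ S, ∑ z ∈ Sᶜ, (M ^ t) x y * M y z := Finset.sum_comm
        _ = _ := by
            refine Finset.sum_congr rfl fun y _ => ?_
            rw [Finset.sum_mul]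
            refine Finset.sum_congr rfl fun x _ => ?_
            rw [Finset.mul_sum]
    rw [e, ← Finset.sum_add_sum_compl S]
    have hA : ∑ y ∈ S, (∑ x ∈ S, (M ^ t) x y) * (∑ z ∈ Sᶜ, M y z)
        ≤ ∑ y ∈ S, ∑ z ∈ Sᶜ, M y z := by
      apply Finset.sum_le_sum
      intro y _
      have h1 : ∑ x ∈ S, (M ^ t) x y ≤ 1 := by
        rw [← pow_col M hc t y]
        exact Finset.sum_le_sum_of_subset_of_nonneg (Finset.subset_univ _)
          fun x _ _ => pow_nonneg' M h0 t x y
      have h2 : 0 ≤ ∑ z ∈ Sᶜ, M y z := Finset.sum_nonneg fun z _ => h0 y z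
      nlinarith
    have hB : ∑ y ∈ Sᶜ, (∑ x ∈ S, (M ^ t) x y) * (∑ z ∈ Sᶜ, M y z)
        ≤ ∑ x ∈ S, ∑ z ∈ Sᶜ, (M ^ t) x z := by
      have e2 : ∑ x ∈ S, ∑ z ∈ Sᶜ, (M ^ t) x z = ∑ z ∈ Sᶜ, ∑ x ∈ S, (M ^ t) x z :=
        Finset.sum_comm
      rw [e2]
      apply Finset.sum_le_sum
      intro y _
      have h1 : ∑ z ∈ Sᶜ, M y z ≤ 1 := by
        rw [← hr y]
        exact Finset.sum_le_sum_of_subset_of_nonneg (Finset.subset_univ _)
          fun x _ _ => h0 y x
      have h2 : 0 ≤ ∑ x ∈ S, (M ^ t) x y :=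
        Finset.sum_nonneg fun x _ => pow_nonneg' M h0 t x y
      nlinarith
    push_cast
    linarith

lemma flp_flp' {n : ℕ} (x : Cube n) (i : Fin n) : flp (flp x i) i = x := by
  unfold flp
  ext j
  by_cases h : j = i
  · subst h; simp
  · simp [Function.update_of_ne h]

lemma mv_mem {n : ℕ} (A : Finset (Cube n)) (x : Cube n) (hx : x ∈ A) (i : Fin n) :
    mv A x i ∈ A := by
  unfold mv
  split_ifs with h
  · exact h
  · exact hx

lemma P_nonneg' {n : ℕ} (A : Finset (Cube n)) (x y : A) : 0 ≤ P A x y := by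
  unfold P
  have : (0 : ℝ) ≤ (1 / 2) * (if y = x then 1 else 0) := by split_ifs <;> norm_num
  positivity

lemma P_symm' {n : ℕ} (A : Finset (Cube n)) (x y : A) : P A x y = P A y x := by
  unfold P
  by_cases h : x = y
  · subst h; rfl
  have e : (univ.filter (fun i : Fin n => mv A x.1 i = y.1))
      = (univ.filter (fun i : Fin n => mv A y.1 i = x.1)) := by
    have hne : x.1 ≠ y.1 := fun h' => h (Subtype.ext h')
    ext i
    simp only [Finset.mem_filter, Finset.mem_univ, true_and]
    constructor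
    · intro hi
      unfold mv at hi
      split_ifs at hi with h1
      · unfold mv
        rw [← hi, flp_flp', if_pos x.2]
      · exact absurd hi hne
    · intro hi
      unfold mv at hi
      split_ifs at hi with h1
      · unfold mv
        rw [← hi, flp_flp', if_pos y.2]
      · exact absurd hi.symm hne
  rw [e, if_neg (fun h' => h h'.symm), if_neg h]

/-- One-step transition probability into a set. -/
lemma P_sum {n : ℕ} (hn : 0 < n) (A : Finset (Cube n)) (x : A) (B : Finset A) (hx : x ∉ B) :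
    ∑ z ∈ B, P A x z
      = (univ.filter (fun i : Fin n => ∃ z ∈ B, mv A x.1 i = z.1)).card / (2 * n) := by
  unfold P
  rw [Finset.sum_add_distrib]
  have h1 : ∑ z ∈ B, (1 / 2 : ℝ) * (if z = x then 1 else 0) = 0 := by
    apply Finset.sum_eq_zero
    intro z hz
    rw [if_neg, mul_zero]
    rintro rfl
    exact hx hz
  rw [h1, zero_add, ← Finset.mul_sum, ← Finset.sum_div, ← Nat.cast_sum]
  have h2 : ∑ z ∈ B, (univ.filter (fun i : Fin n => mv A x.1 i = z.1)).card
      = (univ.filter (fun i : Fin n => ∃ z ∈ B, mv A x.1 i = z.1)).card := by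
    rw [← Finset.card_biUnion]
    · congr 1
      ext i
      simp
    · intro a _ b _ hab
      change Disjoint _ _
      rw [Finset.disjoint_left]
      intro i hi hj
      simp only [Finset.mem_filter, Finset.mem_univ, true_and] at hi hj
      exact hab (Subtype.ext (hi.symm.trans hj))
  rw [h2]
  have : (n : ℝ) ≠ 0 := by positivity
  field_simp

lemma P_row' {n : ℕ} (hn : 0 < n) (A : Finset (Cube n)) (x : A) : ∑ z, P A x z = 1 := by
  unfold P
  rw [Finset.sum_add_distrib, ← Finset.mul_sum, ← Finset.mul_sum, ← Finset.sum_div,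
    ← Nat.cast_sum]
  have h2 : ∑ z : A, (univ.filter (fun i : Fin n => mv A x.1 i = z.1)).card = n := by
    rw [← Finset.card_biUnion]
    · have : (univ.biUnion fun z : A => univ.filter (fun i : Fin n => mv A x.1 i = z.1)) = univ := by
        ext i
        simp only [Finset.mem_biUnion, Finset.mem_univ, Finset.mem_filter, true_and, iff_true]
        exact ⟨⟨_, mv_mem A x.1 x.2 i⟩, rfl⟩
      rw [this]
      simp
    · intro a _ b _ hab
      change Disjoint _ _
      rw [Finset.disjoint_left]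
      intro i hi hj
      simp only [Finset.mem_filter, Finset.mem_univ, true_and] at hi hj
      exact hab (Subtype.ext (hi.symm.trans hj))
  rw [h2]
  have : (n : ℝ) ≠ 0 := by positivity
  rw [div_self this]
  simp
  norm_num

/-- If the walk is mixed at time `t` then the set `S` of stationary measure at most `1/2` has
boundary flow at least `|S| / (4 t)`. -/
lemma mixed_flow {n : ℕ} (hn : 0 < n) (A : Finset (Cube n)) (S : Finset A) (t : ℕ)
    (hS : 2 * S.card ≤ A.card) (hA : 0 < A.card) (hM : Mixed A t) :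
    (S.card : ℝ) / 4 ≤ t * ∑ x ∈ S, ∑ z ∈ Sᶜ, P A x z := by
  refine le_trans ?_ (flow_le (P A) (P_nonneg' A) (P_row' hn A)
    (fun y => by simp_rw [P_symm' A _ y]; exact P_row' hn A y) S t)
  rw [div_eq_mul_inv, ← nsmul_eq_mul]
  rw [← Finset.sum_const]
  apply Finset.sum_le_sum
  intro x _
  have h := hM x
  unfold tv unif at h
  have hrow := pow_row (P A) (P_row' hn A) t x
  have hAc : (0 : ℝ) < A.card := by exact_mod_cast hA
  have hpi : ∑ _z ∈ Sᶜ, (1 / (A.card : ℝ)) ≥ 1 / 2 := by
    rw [Finset.sum_const, nsmul_eq_mul, Finset.card_compl, Fintype.card_coe]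
    have h1 : S.card ≤ A.card := by omega
    rw [Nat.cast_sub h1, mul_one_div, ge_iff_le, div_le_div_iff₀ (by norm_num) hAc]
    have h3 : (2 : ℝ) * S.card ≤ A.card := by exact_mod_cast hS
    linarith
  -- sum over the complement of (pi - P^t) is at most tv
  have hsplit : ∑ z ∈ Sᶜ, (1 / (A.card : ℝ) - ((P A ^ t) x z)) ≤ 1 / 4 := by
    have htot : ∑ z, (1 / (A.card : ℝ) - ((P A ^ t) x z)) = 0 := by
      rw [Finset.sum_sub_distrib, hrow, Finset.sum_const, Finset.card_univ, Fintype.card_coe,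
        nsmul_eq_mul, mul_one_div, div_self (ne_of_gt hAc), sub_self]
    have h1 := Finset.sum_add_sum_compl S (fun z => (1 / (A.card : ℝ) - ((P A ^ t) x z)))
    rw [htot] at h1
    have h2 : ∑ z ∈ Sᶜ, (1 / (A.card : ℝ) - ((P A ^ t) x z))
        ≤ ∑ z ∈ Sᶜ, |(P A ^ t) x z - 1 / (A.card : ℝ)| := by
      apply Finset.sum_le_sum
      intro z _
      rw [abs_sub_comm]
      exact le_abs_self _
    have h3 : -∑ z ∈ S, (1 / (A.card : ℝ) - ((P A ^ t) x z))
        ≤ ∑ z ∈ S, |(P A ^ t) x z - 1 / (A.card : ℝ)| := by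
      rw [← Finset.sum_neg_distrib]
      apply Finset.sum_le_sum
      intro z _
      rw [neg_sub]
      exact le_abs_self _
    have h4 := Finset.sum_add_sum_compl S (fun z => |(P A ^ t) x z - 1 / (A.card : ℝ)|)
    linarith
  rw [Finset.sum_sub_distrib] at hsplit
  linarith

/-- The points which are one on `I`. -/
def sub {n : ℕ} (I : Finset (Fin n)) : Finset (Cube n) := univ.filter (fun x => ∀ i ∈ I, x i = true)

lemma card_sub {n : ℕ} (I : Finset (Fin n)) : (sub I).card = 2 ^ (n - I.card) := by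
  have e : sub I = Fintype.piFinset (fun i : Fin n => if i ∈ I then ({true} : Finset Bool) else univ) := by
    ext x
    simp only [sub, Finset.mem_filter, Finset.mem_univ, true_and, Fintype.mem_piFinset]
    constructor
    · intro h i
      by_cases hi : i ∈ I
      · simp [hi, h i hi]
      · simp [hi]
    · intro h i hi
      have := h i
      simpa [hi] using this
  rw [e, Fintype.card_piFinset]
  have e2 : ∀ i : Fin n, (if i ∈ I then ({true} : Finset Bool) else univ).card
      = if i ∈ I then 1 else 2 := by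
    intro i
    split_ifs <;> rfl
  simp_rw [e2]
  rw [Finset.prod_ite]
  simp only [Finset.prod_const_one, one_mul, Finset.prod_const]
  congr 1
  have h1 : (univ.filter (fun i => i ∉ I)) = Iᶜ := by ext i; simp
  rw [h1, Finset.card_compl, Fintype.card_fin]

lemma isUp_sub_union {n : ℕ} (I J : Finset (Fin n)) : IsUp (sub I ∪ sub J) := by
  intro x hx y hxy
  simp only [sub, Finset.mem_union, Finset.mem_filter, Finset.mem_univ, true_and] at hx ⊢
  have key : ∀ K : Finset (Fin n), (∀ i ∈ K, x i = true) → ∀ i ∈ K, y i = true := by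
    intro K hK i hi
    have h1 := hxy i
    rw [hK i hi] at h1
    cases hy : y i
    · rw [hy] at h1; exact absurd h1 (by decide)
    · rfl
  rcases hx with h | h
  · exact Or.inl (key I h)
  · exact Or.inr (key J h)

lemma sub_inter {n : ℕ} (I J : Finset (Fin n)) : sub I ∩ sub J = sub (I ∪ J) := by
  ext x
  simp only [sub, Finset.mem_inter, Finset.mem_filter, Finset.mem_univ, true_and,
    Finset.mem_union]
  constructor
  · rintro ⟨h1, h2⟩ i (hi | hi)
    · exact h1 i hi
    · exact h2 i hi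
  · intro h
    exact ⟨fun i hi => h i (Or.inl hi), fun i hi => h i (Or.inr hi)⟩

/-- The bottleneck lower bound for the union of the two subcubes. -/
lemma lower {n k : ℕ} (hn : 0 < n) (I J : Finset (Fin n)) (hI : I.card = k) (hJ : J.card = k)
    (hk : 1 ≤ k) (hd : Disjoint I J) (t : ℕ) (hM : Mixed (sub I ∪ sub J) t) :
    (n : ℝ) * (2 ^ k - 1) / (2 * k) ≤ t := by
  have h2k : 2 * k ≤ n := by
    have := Finset.card_le_univ (I ∪ J)
    rw [Finset.card_union_of_disjoint hd, hI, hJ, Fintype.card_fin] at this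
    omega
  set A := sub I ∪ sub J with hA
  have cI : (sub I).card = 2 ^ (n - k) := by rw [card_sub, hI]
  have cJ : (sub J).card = 2 ^ (n - k) := by rw [card_sub, hJ]
  have cIJ : (sub I ∩ sub J).card = 2 ^ (n - 2 * k) := by
    rw [sub_inter, card_sub, Finset.card_union_of_disjoint hd, hI, hJ, two_mul]
  have cA : A.card + 2 ^ (n - 2 * k) = 2 ^ (n - k) + 2 ^ (n - k) := by
    have := Finset.card_union_add_card_inter (sub I) (sub J)
    rw [cI, cJ, cIJ] at this
    exact this
  -- the set S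
  set S : Finset A := univ.filter (fun x : A => x.1 ∈ sub I ∧ x.1 ∉ sub J) with hS
  have cS : S.card = (sub I \ sub J).card := by
    rw [← Finset.card_map ⟨Subtype.val, Subtype.val_injective⟩]
    congr 1
    ext x
    simp only [Finset.mem_map, Function.Embedding.coeFn_mk, hS, Finset.mem_filter,
      Finset.mem_univ, true_and, Finset.mem_sdiff]
    constructor
    · rintro ⟨y, hy, rfl⟩
      exact hy
    · intro h
      exact ⟨⟨x, by rw [hA]; exact Finset.mem_union_left _ h.1⟩, h, rfl⟩
  have cS2 : S.card + 2 ^ (n - 2 * k) = 2 ^ (n - k) := by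
    rw [cS]
    have := Finset.card_sdiff_add_card_inter (sub I) (sub J)
    rw [cI, cIJ] at this
    exact this
  have hSA : 2 * S.card ≤ A.card := by omega
  have hApos : 0 < A.card := by
    have : 0 < 2 ^ (n - k) := by positivity
    have h3 : 2 ^ (n - 2 * k) ≤ 2 ^ (n - k) := Nat.pow_le_pow_right (by norm_num) (by omega)
    omega
  have hflow := mixed_flow hn A S t hSA hApos hM
  -- the flow out of S
  have hQ : ∑ x ∈ S, ∑ z ∈ Sᶜ, P A x z ≤ (k * 2 ^ (n - 2 * k) : ℕ) / (2 * n) := by
    have e1 : ∑ x ∈ S, ∑ z ∈ Sᶜ, P A x z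
        = ∑ x ∈ S, ((univ.filter (fun i : Fin n => ∃ z ∈ Sᶜ, mv A x.1 i = z.1)).card : ℝ)
          / (2 * n) := by
      apply Finset.sum_congr rfl
      intro x hx
      exact P_sum hn A x Sᶜ (fun h => (Finset.mem_compl.mp h) hx)
    rw [e1, ← Finset.sum_div, ← Nat.cast_sum]
    have h2n : (0 : ℝ) < 2 * n := by positivity
    rw [div_le_div_iff_of_pos_right h2n]
    have e2 : ∑ x ∈ S, (univ.filter (fun i : Fin n => ∃ z ∈ Sᶜ, mv A x.1 i = z.1)).card
        = (S.sigma (fun x => univ.filter (fun i : Fin n => ∃ z ∈ Sᶜ, mv A x.1 i = z.1))).card := by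
      rw [Finset.card_sigma]
    rw [e2]
    have e3 : k * 2 ^ (n - 2 * k) = (J ×ˢ (sub I ∩ sub J)).card := by
      rw [Finset.card_product, cIJ, hJ]
    rw [e3, Nat.cast_le]
    -- key fact
    have key : ∀ p ∈ (S.sigma (fun x => univ.filter
        (fun i : Fin n => ∃ z ∈ Sᶜ, mv A x.1 i = z.1))), 
        (p.2 ∈ J ∧ flp p.1.1 p.2 ∈ sub I ∩ sub J) := by
      rintro ⟨x, i⟩ hp
      simp only [Finset.mem_sigma, Finset.mem_filter, Finset.mem_univ, true_and] at hp
      obtain ⟨hxS, z, hz, hmv⟩ := hp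
      have hxS' : x.1 ∈ sub I ∧ x.1 ∉ sub J := by
        simpa [hS] using hxS
      have hzS : ¬ (z.1 ∈ sub I ∧ z.1 ∉ sub J) := by
        intro h
        apply Finset.mem_compl.mp hz
        simpa [hS] using h
      have hzJ : z.1 ∈ sub J := by
        have hzA : z.1 ∈ sub I ∪ sub J := z.2
        by_contra hc
        rcases Finset.mem_union.mp hzA with h | h
        · exact hzS ⟨h, hc⟩
        · exact hc h
      have hzx : z.1 ≠ x.1 := by
        intro h
        rw [h] at hzJ
        exact hxS'.2 hzJ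
      have hflp : flp x.1 i = z.1 := by
        unfold mv at hmv
        split_ifs at hmv with h1
        · exact hmv
        · exact absurd hmv.symm hzx
      have hiJ : i ∈ J := by
        by_contra hiJ
        apply hxS'.2
        simp only [sub, Finset.mem_filter, Finset.mem_univ, true_and] at hzJ ⊢
        intro j hj
        have h1 := hzJ j hj
        rw [← hflp] at h1
        have hji : j ≠ i := by rintro rfl; exact hiJ hj
        simpa [flp, Function.update_of_ne hji] using h1
      refine ⟨hiJ, ?_⟩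
      change flp x.1 i ∈ sub I ∩ sub J
      rw [hflp, Finset.mem_inter]
      refine ⟨?_, hzJ⟩
      rw [← hflp]
      have hxI := hxS'.1
      simp only [sub, Finset.mem_filter, Finset.mem_univ, true_and] at hxI ⊢
      intro j hj
      have hji : j ≠ i := by
        rintro rfl
        exact (Finset.disjoint_left.mp hd hj) hiJ
      simpa [flp, Function.update_of_ne hji] using hxI j hj
    apply Finset.card_le_card_of_injOn (fun p => (p.2, flp p.1.1 p.2))
    · intro p hp
      have := key p hp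
      exact Finset.mem_coe.mpr (Finset.mem_product.mpr this)
    · rintro ⟨x, i⟩ _ ⟨y, j⟩ _ hpq
      simp only [Prod.mk.injEq] at hpq
      obtain ⟨h1, h2⟩ := hpq
      subst h1
      have h3 : x.1 = y.1 := by
        have := congrArg (fun w => flp w i) h2
        simpa [flp_flp'] using this
      have h4 : x = y := Subtype.ext h3
      subst h4
      rfl
  -- conclusion
  have cS3 : (S.card : ℝ) = 2 ^ (n - 2 * k) * (2 ^ k - 1) := by
    have h1 : (S.card : ℝ) + 2 ^ (n - 2 * k) = 2 ^ (n - k) := by exact_mod_cast cS2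
    have h2 : (2 : ℝ) ^ (n - k) = 2 ^ (n - 2 * k) * 2 ^ k := by
      rw [← pow_add]
      congr 1
      omega
    rw [h2] at h1
    linarith
  have ht0 : (0 : ℝ) ≤ t := Nat.cast_nonneg t
  have h5 : (S.card : ℝ) / 4 ≤ t * ((k * 2 ^ (n - 2 * k) : ℕ) / (2 * n)) :=
    hflow.trans (mul_le_mul_of_nonneg_left hQ ht0)
  rw [cS3] at h5
  push_cast at h5
  have hnp : (0 : ℝ) < n := by exact_mod_cast hn
  have hkp : (0 : ℝ) < k := by exact_mod_cast hk
  have hpp : (0 : ℝ) < 2 ^ (n - 2 * k) := by positivity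
  rw [div_le_iff₀ (by positivity)]
  have h6 : (2 : ℝ) ^ (n - 2 * k) * (2 ^ k - 1) / 4 * (2 * n)
      ≤ t * (k * 2 ^ (n - 2 * k)) := by
    have h8 := mul_le_mul_of_nonneg_right h5 (by positivity : (0 : ℝ) ≤ 2 * n)
    have h9 : (t : ℝ) * (k * 2 ^ (n - 2 * k) / (2 * n)) * (2 * n) = t * (k * 2 ^ (n - 2 * k)) := by
      have : (2 * n : ℝ) ≠ 0 := by positivity
      rw [mul_assoc, div_mul_cancel₀ _ this]
    rw [h9] at h8
    exact h8
  have h7 : (2 : ℝ) ^ (n - 2 * k) * (n * (2 ^ k - 1)) ≤ 2 ^ (n - 2 * k) * (t * (2 * k)) := by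
    nlinarith
  exact le_of_mul_le_mul_left h7 hpp

end Pool.Agent.K1H95.Mix
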